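import Mathlib

/-! The invariant as a function of the shape. -/

set_option autoImplicit false

namespace Pool.Agent.R476.SR

open Set

theorem exists_v {t : ℝ} (ht : 1 ≤ t) : ∃ v₀ : ℝ, 4 ≤ v₀ ∧ t ≤ v₀ ^ 2 ∧
    ∀ v : ℝ, 4 ≤ v → (4 * (v - 1) ^ 3 ≤ 27 * t * v ↔ v ≤ v₀) := by
  have hcont : Continuous fun v : ℝ => 4 * (v - 1) ^ 3 - 27 * t * v := by fun_prop
  have h1 : (fun v : ℝ => 4 * (v - 1) ^ 3 - 27 * t * v) 4 ≤ 0 := by
    norm_num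
    linarith
  have h2 : 0 ≤ (fun v : ℝ => 4 * (v - 1) ^ 3 - 27 * t * v) (4 + 9 * t) := by
    have h3 : 4 * (4 + 9 * t - 1) ^ 3 - 27 * t * (4 + 9 * t) =
        4 * (3 + 9 * t) ^ 3 - 27 * t * (4 + 9 * t) := by ring
    simp only
    rw [h3]
    have h4 : 4 * (3 + 9 * t) ^ 3 - 27 * t * (4 + 9 * t) =
      108 + 864 * t + 2673 * t ^ 2 + 2916 * t ^ 3 := by ring
    rw [h4]
    positivity
  obtain ⟨v₀, ⟨hv1, hv2⟩, hv3⟩ := intermediate_value_Icc (by linarith : (4 : ℝ) ≤ 4 + 9 * t)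
    hcont.continuousOn ⟨h1, h2⟩
  simp only at hv3
  have hv0 : 0 < v₀ := by linarith
  have key : ∀ v : ℝ, (4 * (v - 1) ^ 3 - 27 * t * v) * v₀ = 4 * ((v - v₀) *
      ((v - 1) * (v₀ - 1) * (v + v₀ - 2) + (v - 1) ^ 2 + (v - 1) * (v₀ - 1) + (v₀ - 1) ^ 2)) := by
    intro v
    have h5 : 27 * t * v₀ = 4 * (v₀ - 1) ^ 3 := by linarith
    have h6 : (4 * (v - 1) ^ 3 - 27 * t * v) * v₀ = 4 * (v - 1) ^ 3 * v₀ - (27 * t * v₀) * v := by
      ring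
    rw [h6, h5]
    ring
  refine ⟨v₀, hv1, ?_, fun v hv => ?_⟩
  · -- 27 t v₀ = 4 (v₀ - 1)^3 ≤ 4 v₀^3
    have h5 : 27 * t * v₀ = 4 * (v₀ - 1) ^ 3 := by linarith
    have h6 : (v₀ - 1) ^ 3 ≤ v₀ ^ 3 := pow_le_pow_left₀ (by linarith) (by linarith) 3
    have h7 : 27 * t * v₀ ≤ 4 * v₀ ^ 2 * v₀ := by
      calc 27 * t * v₀ = 4 * (v₀ - 1) ^ 3 := h5
        _ ≤ 4 * v₀ ^ 3 := by linarith
        _ = _ := by ring
    have h8 : 27 * t ≤ 4 * v₀ ^ 2 := le_of_mul_le_mul_right h7 hv0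
    nlinarith [sq_nonneg v₀]
  · have hpos : 0 < (v - 1) * (v₀ - 1) * (v + v₀ - 2) + (v - 1) ^ 2 + (v - 1) * (v₀ - 1) +
        (v₀ - 1) ^ 2 := by
      have a1 : 0 < v - 1 := by linarith
      have a2 : 0 < v₀ - 1 := by linarith
      have a3 : 0 < v + v₀ - 2 := by linarith
      positivity
    have hk := key v
    constructor
    · intro h
      by_contra hcon
      rw [not_le] at hcon
      have h3 : 0 < 4 * ((v - v₀) *
        ((v - 1) * (v₀ - 1) * (v + v₀ - 2) + (v - 1) ^ 2 + (v - 1) * (v₀ - 1) +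
          (v₀ - 1) ^ 2)) := by
        have : 0 < v - v₀ := by linarith
        positivity
      rw [← hk] at h3
      have h4 : (4 * (v - 1) ^ 3 - 27 * t * v) * v₀ ≤ 0 :=
        mul_nonpos_of_nonpos_of_nonneg (by linarith) hv0.le
      linarith
    · intro h
      by_contra hcon
      rw [not_le] at hcon
      have h3 : 0 < (4 * (v - 1) ^ 3 - 27 * t * v) * v₀ := mul_pos (by linarith) hv0
      rw [hk] at h3
      have h4 : (v - v₀) *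
        ((v - 1) * (v₀ - 1) * (v + v₀ - 2) + (v - 1) ^ 2 + (v - 1) * (v₀ - 1) +
          (v₀ - 1) ^ 2) ≤ 0 := mul_nonpos_of_nonpos_of_nonneg (by linarith) hpos.le
      linarith

/-- the invariant of the shape `m ≥ 1` in terms of `v = (1 + m) ^ 2 / m` -/
theorem inv_iff {t m : ℝ} (hm : 1 ≤ m) :
    4 * (1 + m + m ^ 2) ^ 3 ≤ 27 * t * (m * (1 + m)) ^ 2 ↔
      4 * ((1 + m) ^ 2 / m - 1) ^ 3 ≤ 27 * t * ((1 + m) ^ 2 / m) := by
  have hm0 : 0 < m := by linarith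
  have e1 : 4 * (1 + m + m ^ 2) ^ 3 = m ^ 3 * (4 * ((1 + m) ^ 2 / m - 1) ^ 3) := by
    field_simp
    ring
  have e2 : 27 * t * (m * (1 + m)) ^ 2 = m ^ 3 * (27 * t * ((1 + m) ^ 2 / m)) := by
    field_simp
  rw [e1, e2]
  exact mul_le_mul_iff_right₀ (by positivity)

theorem v_ge {m : ℝ} (hm : 1 ≤ m) : 4 ≤ (1 + m) ^ 2 / m := by
  have hm0 : 0 < m := by linarith
  rw [le_div_iff₀ hm0]
  nlinarith [sq_nonneg (m - 1)]

theorem inv_small {t m : ℝ} (ht : t < 1) (hm : 1 ≤ m) :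
    27 * t * (m * (1 + m)) ^ 2 < 4 * (1 + m + m ^ 2) ^ 3 := by
  have h0 : 0 < (m * (1 + m)) ^ 2 := by positivity
  have h1 : 27 * t * (m * (1 + m)) ^ 2 < 27 * (m * (1 + m)) ^ 2 :=
    mul_lt_mul_of_pos_right (by linarith) h0
  have h2 : 27 * (m * (1 + m)) ^ 2 ≤ 4 * (1 + m + m ^ 2) ^ 3 := by
    have e : 4 * (1 + m + m ^ 2) ^ 3 - 27 * (m * (1 + m)) ^ 2 =
      ((m - 1) * (2 + m) * (1 + 2 * m)) ^ 2 := by ring
    have : 0 ≤ ((m - 1) * (2 + m) * (1 + 2 * m)) ^ 2 := sq_nonneg _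
    linarith
  linarith

end Pool.Agent.R476.SR
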