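import Pool.Agent.Y911.JL.Dist
import Pool.Agent.R476.SR.Root

/-! The triples with a given repeated part and a large invariant. -/

set_option autoImplicit false

namespace Pool.Agent.R476.SR

open Finset Filter Topology MeasureTheory Pool.Agent.TH498.AR Pool.Agent.Y911.JL
open Pool.Agent.Results.MP_1ea25c_nt.AlmostAllTriples

/-- the shapes with invariant above `1728 t` -/
def MS (t : ℝ) : Set ℝ := {m : ℝ | 1 < m ∧ 27 * t * (m * (1 + m)) ^ 2 < 4 * (1 + m + m ^ 2) ^ 3}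

/-- the weight of the shapes with invariant above `1728 t` -/
noncomputable def JT (t : ℝ) : ℝ := 1 / 2 * ∫ m in MS t, s2 m

theorem MS_small {t : ℝ} (ht : t < 1) : MS t = Set.Ioi 1 := by
  ext m
  constructor
  · exact fun h => h.1
  · intro h
    have h1 : 1 < m := h
    exact ⟨h1, inv_small ht h1.le⟩

theorem JT_small {t : ℝ} (ht : t < 1) : JT t = Ar 1 := by
  unfold JT Ar
  rw [MS_small ht]

/-- the boundary shape -/
theorem exists_M {t : ℝ} (ht : 1 ≤ t) : ∃ M : ℝ, 1 ≤ M ∧ t ≤ (4 * M) ^ 2 ∧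
    ∀ m : ℝ, 1 ≤ m → (27 * t * (m * (1 + m)) ^ 2 < 4 * (1 + m + m ^ 2) ^ 3 ↔ M < m) := by
  obtain ⟨v₀, h1, h2, h3⟩ := exists_v ht
  obtain ⟨M, m1, m2, m3⟩ := exists_root h1
  refine ⟨M, m1, ?_, fun m hm => ?_⟩
  · have h4 : v₀ ≤ 4 * M := by linarith
    calc t ≤ v₀ ^ 2 := h2
      _ ≤ (4 * M) ^ 2 := pow_le_pow_left₀ (by linarith) h4 2
  · have hm0 : 0 < m := by linarith
    rw [← not_le, ← not_le, not_iff_not, inv_iff hm, h3 _ (v_ge hm), div_le_iff₀ hm0]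
    exact m3 m hm

theorem MS_large {t M : ℝ} (hM : 1 ≤ M)
    (h : ∀ m : ℝ, 1 ≤ m → (27 * t * (m * (1 + m)) ^ 2 < 4 * (1 + m + m ^ 2) ^ 3 ↔ M < m)) :
    MS t = Set.Ioi M := by
  ext m
  constructor
  · rintro ⟨h1, h2⟩
    exact (h m h1.le).1 h2
  · intro h1
    have h2 : M < m := h1
    exact ⟨by linarith, (h m (by linarith)).2 h2⟩

theorem JT_large {t M : ℝ} (hM : 1 ≤ M)
    (h : ∀ m : ℝ, 1 ≤ m → (27 * t * (m * (1 + m)) ^ 2 < 4 * (1 + m + m ^ 2) ^ 3 ↔ M < m)) :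
    JT t = Ar M := by
  unfold JT Ar
  rw [MS_large hM h]

theorem JT_nonneg (t : ℝ) : 0 ≤ JT t := by
  rcases lt_or_ge t 1 with h | h
  · rw [JT_small h]
    exact Ar_nonneg le_rfl
  · obtain ⟨M, h1, -, h2⟩ := exists_M h
    rw [JT_large h1 h2]
    exact Ar_nonneg h1

theorem Ar_anti {M : ℝ} (hM : 1 ≤ M) : Ar M ≤ Ar 1 := by
  have h := Ar_sub hM
  have h2 : 0 ≤ ∫ m in Set.Ioc 1 M, s2 m := by
    refine setIntegral_nonneg measurableSet_Ioc fun m hm => s2_nonneg ?_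
    linarith [hm.1]
  linarith

theorem JT_le (t : ℝ) : JT t ≤ Ar 1 := by
  rcases lt_or_ge t 1 with h | h
  · rw [JT_small h]
  · obtain ⟨M, h1, -, h2⟩ := exists_M h
    rw [JT_large h1 h2]
    exact Ar_anti h1

/-- the tail -/
theorem JT_tail : ∃ C : ℝ, 0 < C ∧ ∀ s t : ℝ, 0 < s → s ≤ 1 / 6 → 0 < t → JT t ≤ C * t ^ (-s) := by
  refine ⟨max 3 (Ar 1), by positivity, fun s t hs0 hs ht => ?_⟩
  rcases lt_or_ge t 1 with h | h
  · rw [JT_small h]
    have h1 : 1 ≤ t ^ (-s) := Real.one_le_rpow_of_pos_of_le_one_of_nonpos ht h.le (by linarith)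
    calc Ar 1 ≤ max 3 (Ar 1) * 1 := by rw [mul_one]; exact le_max_right _ _
      _ ≤ _ := mul_le_mul_of_nonneg_left h1 (by positivity)
  · obtain ⟨M, h1, h2, h3⟩ := exists_M h
    rw [JT_large h1 h3]
    have h4 := Ar_le h1
    have h5 : M ^ (-(1 : ℝ) / 3) ≤ 2 * t ^ (-s) := by
      have a1 : t ^ ((1 : ℝ) / 6) ≤ ((4 * M) ^ 2) ^ ((1 : ℝ) / 6) :=
        Real.rpow_le_rpow ht.le h2 (by norm_num)
      have a2 : ((4 * M) ^ 2) ^ ((1 : ℝ) / 6) = (4 * M) ^ ((1 : ℝ) / 3) := by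
        rw [← Real.rpow_natCast, ← Real.rpow_mul (by positivity)]
        norm_num
      have a3 : (4 * M) ^ ((1 : ℝ) / 3) ≤ 2 * M ^ ((1 : ℝ) / 3) := by
        rw [Real.mul_rpow (by norm_num) (by linarith)]
        refine mul_le_mul_of_nonneg_right ?_ (by positivity)
        calc (4 : ℝ) ^ ((1 : ℝ) / 3) ≤ 8 ^ ((1 : ℝ) / 3) :=
              Real.rpow_le_rpow (by norm_num) (by norm_num) (by norm_num)
          _ = 2 := by
            rw [show (8 : ℝ) = 2 ^ (3 : ℝ) by norm_num, ← Real.rpow_mul (by norm_num)]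
            norm_num
      have a4 : t ^ s ≤ t ^ ((1 : ℝ) / 6) := Real.rpow_le_rpow_of_exponent_le h hs
      have a5 : t ^ s ≤ 2 * M ^ ((1 : ℝ) / 3) := by
        rw [a2] at a1
        linarith
      have a6 : M ^ (-(1 : ℝ) / 3) = (M ^ ((1 : ℝ) / 3))⁻¹ := by
        rw [show -(1 : ℝ) / 3 = -(1 / 3) by norm_num, Real.rpow_neg (by linarith)]
      have a7 : t ^ (-s) = (t ^ s)⁻¹ := Real.rpow_neg ht.le s
      rw [a6, a7]
      have b1 : 0 < t ^ s := by positivity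
      have b2 : 0 < M ^ ((1 : ℝ) / 3) := by positivity
      rw [← div_eq_mul_inv, inv_eq_one_div, div_le_div_iff₀ b2 b1]
      linarith
    calc Ar M ≤ 3 / 2 * M ^ (-(1 : ℝ) / 3) := h4
      _ ≤ 3 / 2 * (2 * t ^ (-s)) := by linarith
      _ = 3 * t ^ (-s) := by ring
      _ ≤ _ := mul_le_mul_of_nonneg_right (le_max_left _ _) (by positivity)

/-- the invariant of a pair is above `1728 t` -/
def Inv (t : ℝ) (p : ℕ × ℕ) : Prop :=
  27 * t * ((p.1 : ℝ) * p.2 * (p.1 + p.2)) ^ 2 <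
    4 * ((p.1 : ℝ) ^ 2 + p.1 * p.2 + (p.2 : ℝ) ^ 2) ^ 3

theorem Inv_iff {t : ℝ} {p : ℕ × ℕ} (h : 0 < p.1) :
    Inv t p ↔ 27 * t * (((p.2 : ℝ) / p.1) * (1 + (p.2 : ℝ) / p.1)) ^ 2 <
      4 * (1 + (p.2 : ℝ) / p.1 + ((p.2 : ℝ) / p.1) ^ 2) ^ 3 := by
  have b1 : (0 : ℝ) < p.1 := by exact_mod_cast h
  have e1 : 27 * t * ((p.1 : ℝ) * p.2 * (p.1 + p.2)) ^ 2 =
      (p.1 : ℝ) ^ 6 * (27 * t * (((p.2 : ℝ) / p.1) * (1 + (p.2 : ℝ) / p.1)) ^ 2) := by
    field_simp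
  have e2 : 4 * ((p.1 : ℝ) ^ 2 + p.1 * p.2 + (p.2 : ℝ) ^ 2) ^ 3 =
      (p.1 : ℝ) ^ 6 * (4 * (1 + (p.2 : ℝ) / p.1 + ((p.2 : ℝ) / p.1) ^ 2) ^ 3) := by
    field_simp
  unfold Inv
  rw [e1, e2]
  exact mul_lt_mul_iff_right₀ (by positivity)

/-- **The triples with a given repeated part and a large invariant.** -/
theorem cone_limit (w : ℕ) (t : ℝ) :
    Tendsto (fun X : ℝ => (({p | p ∈ triples X ∧ Inv t p ∧ psi3 ∅ p = w} :
      Set (ℕ × ℕ)).ncard : ℝ) / X ^ ((2 : ℝ) / 3)) atTop (𝓝 (c0 * rho w * JT t)) := by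
  rcases lt_or_ge t 1 with ht | ht
  · rw [JT_small ht]
    have e : ∀ X : ℝ, ({p | p ∈ triples X ∧ Inv t p ∧ psi3 ∅ p = w} : Set (ℕ × ℕ)) =
        TW w 1 X := fun X => by
      ext p
      constructor
      · rintro ⟨a1, a2, a3⟩
        exact ⟨a1, by rw [one_mul]; exact_mod_cast a1.2.1, a3⟩
      · rintro ⟨a1, a2, a3⟩
        exact ⟨a1, (Inv_iff a1.1).2 (inv_small ht (ratio_ge a1)), a3⟩
    simp only [e]
    exact TW_limit w le_rfl
  · obtain ⟨M, hM1, -, hM⟩ := exists_M ht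
    rw [JT_large hM1 hM]
    have h3 := TW_limit w hM1
    have hX : Tendsto (fun X : ℝ => X ^ (-(2 / 3 : ℝ))) atTop (𝓝 0) :=
      tendsto_rpow_neg_atTop (by norm_num)
    have h4 : Tendsto (fun X : ℝ => (({p | p ∈ triples X ∧ Inv t p ∧ psi3 ∅ p = w} :
        Set (ℕ × ℕ)).ncard : ℝ) / X ^ ((2 : ℝ) / 3) -
          ((TW w M X).ncard : ℝ) / X ^ ((2 : ℝ) / 3)) atTop (𝓝 0) := by
      refine squeeze_zero_norm' ?_ hX
      filter_upwards [eventually_ge_atTop 1] with X hX1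
      have hTf := Pool.Agent.Y911.AA.triples_finite' X
      obtain ⟨B, hB⟩ : ∃ B : Set (ℕ × ℕ), B = {p | p ∈ triples X ∧ Inv t p ∧ psi3 ∅ p = w} :=
        ⟨_, rfl⟩
      rw [← hB]
      have f3 : (TW w M X).Finite := hTf.subset fun p hp => hp.1
      have hiff : ∀ p ∈ triples X, (Inv t p ↔ M * p.1 < (p.2 : ℝ)) := by
        intro p hp
        have b1 : (0 : ℝ) < p.1 := by exact_mod_cast hp.1
        rw [Inv_iff hp.1, hM _ (ratio_ge hp), lt_div_iff₀ b1]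
      have hsub : B ⊆ TW w M X := by
        intro p hp
        rw [hB] at hp
        obtain ⟨a1, a2, a3⟩ := hp
        exact ⟨a1, ((hiff p a1).1 a2).le, a3⟩
      have hdiff : (TW w M X \ B).ncard ≤ 1 := by
        refine line_le (μ := M) (f3.subset Set.sdiff_subset) ?_
        rintro p ⟨⟨a1, a2, a3⟩, a4⟩
        refine ⟨a1.1, a1.2.2.1, le_antisymm ?_ a2⟩
        by_contra hcon
        rw [not_le] at hcon
        apply a4
        rw [hB]
        exact ⟨a1, (hiff p a1).2 hcon, a3⟩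
      have hsum := Set.ncard_sdiff_add_ncard_of_subset hsub f3
      have h5 : (B.ncard : ℝ) - ((TW w M X).ncard : ℝ) = -((TW w M X \ B).ncard : ℝ) := by
        have : ((TW w M X \ B).ncard : ℝ) + (B.ncard : ℝ) = ((TW w M X).ncard : ℝ) := by
          exact_mod_cast hsum
        linarith
      have h6 : ((TW w M X \ B).ncard : ℝ) ≤ 1 := by exact_mod_cast hdiff
      rw [← sub_div, h5, Real.norm_eq_abs, abs_div, abs_neg, Nat.abs_cast,
        abs_of_nonneg (by positivity : 0 ≤ X ^ ((2 : ℝ) / 3)),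
        Real.rpow_neg (by linarith), div_eq_mul_inv]
      calc ((TW w M X \ B).ncard : ℝ) * (X ^ ((2 : ℝ) / 3))⁻¹ ≤
            1 * (X ^ ((2 : ℝ) / 3))⁻¹ := mul_le_mul_of_nonneg_right h6 (by positivity)
        _ = _ := one_mul _
    have h5 := h4.add h3
    rw [zero_add] at h5
    refine h5.congr fun X => ?_
    ring

end Pool.Agent.R476.SR
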