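import Pool.Agent.R476.SR.Trans
import Pool.Agent.Y911.JL.Psi

/-! The law of the quotient and of the height. -/

set_option autoImplicit false

namespace Pool.Agent.R476.SR

open Finset Filter Topology Pool.Agent.TH498.AR Pool.Agent.Y911.JL Pool.Agent.H925R.Szpiro
open Pool.Agent.Results.MP_1ea25c_nt.AlmostAllTriples Pool.Agent.Y680.S

/-- the mass of a quotient, by parity of the conductor -/
noncomputable def mass (i r : ℕ) : ℝ :=
  if i = 0 then (2 : ℝ) ^ (-(4 : ℝ) / 3) * wt r else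
    if Odd r then (2 : ℝ) ^ (-(1 : ℝ) / 3) * wt r else 0

theorem mass_nonneg (i r : ℕ) : 0 ≤ mass i r := by
  have := wt_nonneg r
  unfold mass
  split_ifs
  · positivity
  · positivity
  · exact le_rfl

theorem mass_zero (r : ℕ) : mass 0 r = (2 : ℝ) ^ (-(4 : ℝ) / 3) * wt r := if_pos rfl

theorem mass_one (r : ℕ) : mass 1 r =
    {r : ℕ | ¬ 2 ∣ r}.indicator (fun r => (2 : ℝ) ^ (-(1 : ℝ) / 3) * wt r) r := by
  unfold mass
  rw [if_neg one_ne_zero]
  by_cases h : 2 ∣ r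
  · rw [if_neg (by rw [← Nat.not_even_iff_odd, not_not]; exact even_iff_two_dvd.2 h),
      Set.indicator_of_notMem (show r ∉ {r : ℕ | ¬ 2 ∣ r} from fun h' => h' h)]
  · rw [if_pos (by rw [← Nat.not_even_iff_odd]; exact fun h' => h (even_iff_two_dvd.1 h')),
      Set.indicator_of_mem (show r ∈ {r : ℕ | ¬ 2 ∣ r} from h)]

theorem rpow43 : (2 : ℝ) ^ (-(4 : ℝ) / 3) ≤ 1 :=
  Real.rpow_le_one_of_one_le_of_nonpos (by norm_num) (by norm_num)

theorem rpow13 : (2 : ℝ) ^ (-(1 : ℝ) / 3) ≤ 1 :=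
  Real.rpow_le_one_of_one_le_of_nonpos (by norm_num) (by norm_num)

theorem mass_le (i r : ℕ) : mass i r ≤ wt r := by
  have := wt_nonneg r
  unfold mass
  split_ifs
  · exact mul_le_of_le_one_left this rpow43
  · exact mul_le_of_le_one_left this rpow13
  · exact this

theorem wt_summable : Summable wt := consts.2.2.1

/-- the sum over the quotients -/
theorem sm (i : ℕ) (S : Set ℕ) (t : ℕ → ℝ) :
    Summable fun r => S.indicator (fun r => mass i r * JT (t r)) r := by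
  refine Summable.of_nonneg_of_le (fun r => Set.indicator_nonneg
    (fun r _ => mul_nonneg (mass_nonneg i r) (JT_nonneg _)) r) (fun r => ?_)
    (wt_summable.mul_right (Ar 1))
  by_cases h : r ∈ S
  · rw [Set.indicator_of_mem h]
    exact mul_le_mul (mass_le i r) (JT_le _) (JT_nonneg _) (wt_nonneg r)
  · rw [Set.indicator_of_notMem h]
    exact mul_nonneg (wt_nonneg r) (Ar_nonneg le_rfl)

theorem sum0 (S : Set ℕ) (t : ℕ → ℝ) :
    (2 : ℝ) ^ (-(4 : ℝ) / 3) * ∑' r, wt r * S.indicator (fun r => JT (t r)) r =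
      ∑' r, S.indicator (fun r => mass 0 r * JT (t r)) r := by
  rw [← tsum_mul_left]
  refine tsum_congr fun r => ?_
  by_cases h : r ∈ S
  · rw [Set.indicator_of_mem h, Set.indicator_of_mem h, mass_zero]
    ring
  · rw [Set.indicator_of_notMem h, Set.indicator_of_notMem h, mul_zero, mul_zero]

theorem sum1 (S : Set ℕ) (t : ℕ → ℝ) :
    (2 : ℝ) ^ (-(1 : ℝ) / 3) * ∑' r, {r : ℕ | ¬ 2 ∣ r}.indicator
        (fun r => wt r * S.indicator (fun r => JT (t r)) r) r =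
      ∑' r, S.indicator (fun r => mass 1 r * JT (t r)) r := by
  rw [← tsum_mul_left]
  refine tsum_congr fun r => ?_
  by_cases h : r ∈ S
  · rw [Set.indicator_of_mem h, mass_one]
    by_cases h2 : 2 ∣ r
    · rw [Set.indicator_of_notMem (show r ∉ {r : ℕ | ¬ 2 ∣ r} from fun h' => h' h2),
        Set.indicator_of_notMem (show r ∉ {r : ℕ | ¬ 2 ∣ r} from fun h' => h' h2), mul_zero,
        zero_mul]
    · rw [Set.indicator_of_mem (show r ∈ {r : ℕ | ¬ 2 ∣ r} from h2),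
        Set.indicator_of_mem (show r ∈ {r : ℕ | ¬ 2 ∣ r} from h2), Set.indicator_of_mem h]
      ring
  · rw [Set.indicator_of_notMem h]
    by_cases h2 : 2 ∣ r
    · rw [Set.indicator_of_notMem (show r ∉ {r : ℕ | ¬ 2 ∣ r} from fun h' => h' h2), mul_zero]
    · rw [Set.indicator_of_mem (show r ∈ {r : ℕ | ¬ 2 ∣ r} from h2), Set.indicator_of_notMem h,
        mul_zero, mul_zero]

/-- the number of the curves with a property is asymptotic to `a X ^ (2/3)` -/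
def HC (P : WeierstrassCurve ℤ → Prop) (a : ℝ) : Prop :=
  Tendsto (fun X : ℝ => ((Cu P X).ncard : ℝ) / X ^ ((2 : ℝ) / 3)) atTop (𝓝 a)

theorem HC_joint {i : ℕ} (hi : i < 2) (S : Set ℕ) (t : ℕ → ℝ) :
    HC (fun W => cond W % 2 = i ∧ ∃ r ∈ S,
      W.Δ = ((r * cond W : ℕ) : ℤ) ^ 2 ∧ 1728 * t r * (W.Δ : ℝ) < (W.c₄ : ℝ) ^ 3)
      (c0 * ∑' r, S.indicator (fun r => mass i r * JT (t r)) r) := by
  unfold HC
  interval_cases i
  · rw [← sum0]
    exact joint0 S t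
  · rw [← sum1]
    exact joint1 S t

theorem Cu_congr {P P' : WeierstrassCurve ℤ → Prop} (h : ∀ W p, Att W p → (P W ↔ P' W)) (X : ℝ) :
    Cu P X = Cu P' X := by
  ext q
  constructor
  · rintro ⟨W, w1, w2, w3, w4, w5, w6⟩
    obtain ⟨p, a1, a2, a3, a4, a5, a6⟩ := exists_pair W w1 w2 w3
    exact ⟨W, w1, w2, w3, w4, w5, (h W p ⟨a1, a2, a3, a4, a5, a6⟩).1 w6⟩
  · rintro ⟨W, w1, w2, w3, w4, w5, w6⟩
    obtain ⟨p, a1, a2, a3, a4, a5, a6⟩ := exists_pair W w1 w2 w3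
    exact ⟨W, w1, w2, w3, w4, w5, (h W p ⟨a1, a2, a3, a4, a5, a6⟩).2 w6⟩

theorem HC_congr {P P' : WeierstrassCurve ℤ → Prop} (h : ∀ W p, Att W p → (P W ↔ P' W)) {a : ℝ}
    (hP : HC P a) : HC P' a := by
  unfold HC at hP ⊢
  simp only [← Cu_congr h]
  exact hP

/-- a curve and its parity -/
theorem HC_add {P : WeierstrassCurve ℤ → Prop} {Q : ℕ × ℕ → Prop}
    (hPQ : ∀ W p, Att W p → (P W ↔ Q p)) {a b : ℝ}
    (h0 : HC (fun W => cond W % 2 = 0 ∧ P W) a) (h1 : HC (fun W => cond W % 2 = 1 ∧ P W) b) :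
    HC P (a + b) := by
  unfold HC at h0 h1 ⊢
  refine (h0.add h1).congr fun X => ?_
  rw [← add_div]
  congr 1
  have e0 : ∀ W p, Att W p → ((cond W % 2 = 0 ∧ P W) ↔ (16 ∣ psi3 ∅ p ∧ Q p)) := fun W p hA => by
    rw [hA.facts.1, hPQ W p hA]
  have e1 : ∀ W p, Att W p → ((cond W % 2 = 1 ∧ P W) ↔ (¬ 16 ∣ psi3 ∅ p ∧ Q p)) :=
    fun W p hA => by
      rw [← hA.facts.1, hPQ W p hA]
      have : cond W % 2 = 1 ↔ ¬ cond W % 2 = 0 := by omega
      rw [this]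
  rw [Cu_ncard e0, Cu_ncard e1, Cu_ncard hPQ]
  have hf := GT_finite X
  have fA : ({p | p ∈ GT th X ∧ 16 ∣ psi3 ∅ p ∧ Q p} : Set (ℕ × ℕ)).Finite :=
    hf.subset fun p hp => hp.1
  have fB : ({p | p ∈ GT th X ∧ ¬ 16 ∣ psi3 ∅ p ∧ Q p} : Set (ℕ × ℕ)).Finite :=
    hf.subset fun p hp => hp.1
  have hd : Disjoint ({p | p ∈ GT th X ∧ 16 ∣ psi3 ∅ p ∧ Q p} : Set (ℕ × ℕ))
      ({p | p ∈ GT th X ∧ ¬ 16 ∣ psi3 ∅ p ∧ Q p} : Set (ℕ × ℕ)) := by
    rw [Set.disjoint_left]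
    rintro p ⟨-, a1, -⟩ ⟨-, a2, -⟩
    exact a2 a1
  rw [← Nat.cast_add, ← Set.ncard_union_eq hd fA fB]
  congr 2
  ext p
  constructor
  · rintro (⟨a1, a2, a3⟩ | ⟨a1, a2, a3⟩)
    · exact ⟨a1, a3⟩
    · exact ⟨a1, a3⟩
  · rintro ⟨a1, a2⟩
    by_cases h : 16 ∣ psi3 ∅ p
    · exact Or.inl ⟨a1, h, a2⟩
    · exact Or.inr ⟨a1, h, a2⟩

/-- both parities together -/
theorem HC_both (S : Set ℕ) (t : ℕ → ℝ) :
    HC (fun W => ∃ r ∈ S, W.Δ = ((r * cond W : ℕ) : ℤ) ^ 2 ∧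
        1728 * t r * (W.Δ : ℝ) < (W.c₄ : ℝ) ^ 3)
      (c0 * ∑' r, S.indicator (fun r => (mass 0 r + mass 1 r) * JT (t r)) r) := by
  have e : c0 * ∑' r, S.indicator (fun r => (mass 0 r + mass 1 r) * JT (t r)) r =
      c0 * ∑' r, S.indicator (fun r => mass 0 r * JT (t r)) r +
      c0 * ∑' r, S.indicator (fun r => mass 1 r * JT (t r)) r := by
    rw [← mul_add, ← (sm 0 S t).tsum_add (sm 1 S t)]
    congr 1
    refine tsum_congr fun r => ?_
    by_cases h : r ∈ S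
    · rw [Set.indicator_of_mem h, Set.indicator_of_mem h, Set.indicator_of_mem h]
      ring
    · rw [Set.indicator_of_notMem h, Set.indicator_of_notMem h, Set.indicator_of_notMem h,
        add_zero]
  rw [e]
  refine HC_add (Q := fun p => rr p ∈ S ∧ Inv (t (rr p)) p) ?_ (HC_joint (by norm_num) S t)
    (HC_joint (by norm_num) S t)
  intro W p hA
  obtain ⟨f1, f2, f3, f4⟩ := hA.facts
  constructor
  · rintro ⟨r, g2, g3, g4⟩
    have e2 : r = rr p := by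
      rw [f4] at g3
      have := (sq_eq_sq₀ (by positivity) (by positivity)).1 g3
      have h5 : rr p * cond W = r * cond W := by exact_mod_cast this
      exact (Nat.eq_of_mul_eq_mul_right f3 h5).symm
    rw [hA.inv, e2] at g4
    rw [e2] at g2
    exact ⟨g2, g4⟩
  · rintro ⟨g2, g3⟩
    exact ⟨rr p, g2, f4, by rw [hA.inv]; exact g3⟩

/-- the height of a curve -/
def ht (W : WeierstrassCurve ℤ) : ℤ := max (|W.c₄| ^ 3) (W.c₆ ^ 2)

/-- the limit for the height -/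
noncomputable def EE (K : ℝ) : ℝ :=
  ∑' r : ℕ, (mass 0 r + mass 1 r) * JT (K / (1728 * (r : ℝ) ^ 2))

/-- the limit for the discriminant -/
noncomputable def DD (K : ℝ) : ℝ :=
  ∑' r : ℕ, {r : ℕ | K < (r : ℝ) ^ 2}.indicator (fun r => (mass 0 r + mass 1 r) * Ar 1) r

/-- **The law of the height.** -/
theorem HC_height (K : ℝ) : HC (fun W => K * (cond W : ℝ) ^ 2 < (ht W : ℝ)) (c0 * EE K) := by
  have h := HC_both Set.univ fun r => K / (1728 * (r : ℝ) ^ 2)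
  simp only [Set.indicator_univ] at h
  refine HC_congr (fun W p hA => ?_) h
  obtain ⟨f1, f2, f3, f4⟩ := hA.facts
  obtain ⟨g1, g2, g3, g4⟩ := hA.height
  have e : (ht W : ℝ) = (W.c₄ : ℝ) ^ 3 := by
    unfold ht
    rw [g4]
    push_cast
    ring
  have key : ∀ r : ℕ, W.Δ = ((r * cond W : ℕ) : ℤ) ^ 2 →
      1728 * (K / (1728 * (r : ℝ) ^ 2)) * (W.Δ : ℝ) = K * (cond W : ℝ) ^ 2 := by
    intro r hr
    have hr0 : (r : ℝ) ≠ 0 := by
      intro h0
      have : r = 0 := by exact_mod_cast h0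
      rw [this, zero_mul] at hr
      norm_num at hr
      omega
    rw [hr]
    push_cast
    field_simp
  rw [e]
  constructor
  · rintro ⟨r, -, h1, h2⟩
    rw [key r h1] at h2
    exact h2
  · intro h1
    exact ⟨rr p, trivial, f4, by rw [key _ f4]; exact h1⟩

/-- **The law of the discriminant.** -/
theorem HC_disc (K : ℝ) : HC (fun W => K * (cond W : ℝ) ^ 2 < |(W.Δ : ℝ)|) (c0 * DD K) := by
  have h := HC_both {r : ℕ | K < (r : ℝ) ^ 2} fun _ => 0
  simp only [JT_small (show (0 : ℝ) < 1 by norm_num)] at h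
  refine HC_congr (fun W p hA => ?_) h
  obtain ⟨f1, f2, f3, f4⟩ := hA.facts
  obtain ⟨g1, g2, g3, g4⟩ := hA.height
  have g1' : 0 < (W.Δ : ℝ) := by exact_mod_cast g1
  have g2' : 0 < (W.c₄ : ℝ) := by exact_mod_cast g2
  have f3' : 0 < (cond W : ℝ) := by exact_mod_cast f3
  rw [abs_of_pos g1']
  have key : ∀ r : ℕ, W.Δ = ((r * cond W : ℕ) : ℤ) ^ 2 →
      (K * (cond W : ℝ) ^ 2 < (W.Δ : ℝ) ↔ K < (r : ℝ) ^ 2) := by
    intro r hr
    rw [hr]
    push_cast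
    rw [mul_pow]
    exact mul_lt_mul_iff_left₀ (by positivity)
  constructor
  · rintro ⟨r, h1, h2, -⟩
    exact (key r h2).2 h1
  · intro h1
    refine ⟨rr p, (key _ f4).1 h1, f4, ?_⟩
    rw [mul_zero, zero_mul]
    positivity

/-- **The number of the curves.** -/
theorem HC_all : HC (fun _ => True) (c0 * ∑' r, (mass 0 r + mass 1 r) * Ar 1) := by
  have h := HC_both Set.univ fun _ => 0
  simp only [Set.indicator_univ, JT_small (show (0 : ℝ) < 1 by norm_num)] at h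
  refine HC_congr (fun W p hA => ?_) h
  obtain ⟨f1, f2, f3, f4⟩ := hA.facts
  obtain ⟨g1, g2, g3, g4⟩ := hA.height
  have g2' : 0 < (W.c₄ : ℝ) := by exact_mod_cast g2
  refine ⟨fun _ => trivial, fun _ => ⟨rr p, trivial, f4, ?_⟩⟩
  rw [mul_zero, zero_mul]
  positivity

/-- the constant -/
theorem const_eq : c0 * ∑' r, (mass 0 r + mass 1 r) * Ar 1 =
    ((2 : ℝ) ^ (-(4 : ℝ) / 3) + (2 : ℝ) ^ (-(1 : ℝ) / 3) - (2 : ℝ) ^ (-(2 : ℝ) / 3)) *
      (c0 * (∑' w, rho w) * Ar 1) := by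
  have s0 : Summable (mass 0) := Summable.of_nonneg_of_le (mass_nonneg 0) (mass_le 0) wt_summable
  have s1 : Summable (mass 1) := Summable.of_nonneg_of_le (mass_nonneg 1) (mass_le 1) wt_summable
  rw [tsum_mul_right, s0.tsum_add s1]
  have e0 : ∑' r, mass 0 r = (2 : ℝ) ^ (-(4 : ℝ) / 3) * ∑' r, wt r := by
    rw [← tsum_mul_left]
    exact tsum_congr mass_zero
  have e1 : ∑' r, mass 1 r = (2 : ℝ) ^ (-(1 : ℝ) / 3) *
      ((1 - (2 : ℝ) ^ (-(1 : ℝ) / 3)) * ∑' r, wt r) := by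
    rw [← sum_odd wt_summable, ← tsum_mul_left]
    refine tsum_congr fun r => ?_
    rw [mass_one]
    by_cases h2 : 2 ∣ r
    · rw [Set.indicator_of_notMem (show r ∉ {r : ℕ | ¬ 2 ∣ r} from fun h' => h' h2),
        Set.indicator_of_notMem (show r ∉ {r : ℕ | ¬ 2 ∣ r} from fun h' => h' h2), mul_zero]
    · rw [Set.indicator_of_mem (show r ∈ {r : ℕ | ¬ 2 ∣ r} from h2),
        Set.indicator_of_mem (show r ∈ {r : ℕ | ¬ 2 ∣ r} from h2)]
  have e2 : (2 : ℝ) ^ (-(2 : ℝ) / 3) = (2 : ℝ) ^ (-(1 : ℝ) / 3) * (2 : ℝ) ^ (-(1 : ℝ) / 3) := by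
    rw [← Real.rpow_add (by norm_num)]
    norm_num
  rw [e0, e1, e2, ← wt_rho]
  ring

/-- the tail of the height law -/
theorem EE_le {s : ℝ} (hs0 : 0 < s) (hs : s < 1 / 6) :
    ∃ C : ℝ, 0 < C ∧ ∀ K : ℝ, 1 ≤ K → c0 * EE K ≤ C * K ^ (-s) := by
  obtain ⟨C, hC, h⟩ := JT_tail
  have hsum : Summable (wm (2 * s)) := wm_summable (by linarith)
  refine ⟨c0 * (2 * C * (1728 : ℝ) ^ s * ∑' r, wm (2 * s) r) + 1, ?_, fun K hK => ?_⟩
  · have h1 : 0 ≤ ∑' r, wm (2 * s) r := tsum_nonneg (wm_nonneg _)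
    have := c0_nonneg
    positivity
  have hK0 : 0 < K := by linarith
  have hterm : ∀ r : ℕ, (mass 0 r + mass 1 r) * JT (K / (1728 * (r : ℝ) ^ 2)) ≤
      2 * C * (1728 : ℝ) ^ s * K ^ (-s) * wm (2 * s) r := by
    intro r
    rcases Nat.eq_zero_or_pos r with rfl | hr
    · have e0 : mass 0 0 + mass 1 0 = 0 := by
        have a := mass_le 0 0
        have b := mass_le 1 0
        have a' := mass_nonneg 0 0
        have b' := mass_nonneg 1 0
        rw [wt_zero] at a b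
        linarith
      rw [e0, zero_mul]
      have := wm_nonneg (2 * s) 0
      positivity
    · have hr0 : (0 : ℝ) < r := by exact_mod_cast hr
      have a1 : JT (K / (1728 * (r : ℝ) ^ 2)) ≤ C * (K / (1728 * (r : ℝ) ^ 2)) ^ (-s) :=
        h s _ hs0 hs.le (by positivity)
      have a2 : (K / (1728 * (r : ℝ) ^ 2)) ^ (-s) = (1728 : ℝ) ^ s * K ^ (-s) * (r : ℝ) ^ (2 * s) := by
        rw [Real.div_rpow hK0.le (by positivity), Real.mul_rpow (by norm_num) (by positivity),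
          Real.rpow_neg (by norm_num : (0 : ℝ) ≤ 1728), Real.rpow_neg (by positivity : 0 ≤ (r : ℝ) ^ 2),
          ← Real.rpow_natCast (r : ℝ) 2, ← Real.rpow_mul hr0.le]
        have b1 : (1728 : ℝ) ^ s ≠ 0 := by positivity
        have b2 : (r : ℝ) ^ (((2 : ℕ) : ℝ) * s) ≠ 0 := by positivity
        push_cast at b2 ⊢
        field_simp
      have a3 : mass 0 r + mass 1 r ≤ 2 * wt r := by
        have a := mass_le 0 r
        have b := mass_le 1 r
        linarith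
      calc (mass 0 r + mass 1 r) * JT (K / (1728 * (r : ℝ) ^ 2)) ≤
            2 * wt r * (C * (K / (1728 * (r : ℝ) ^ 2)) ^ (-s)) :=
            mul_le_mul a3 a1 (JT_nonneg _) (mul_nonneg (by norm_num) (wt_nonneg r))
        _ = _ := by
            rw [a2]
            unfold wm
            ring
  have hs2 : Summable fun r => 2 * C * (1728 : ℝ) ^ s * K ^ (-s) * wm (2 * s) r :=
    hsum.mul_left _
  have hnn : ∀ r : ℕ, 0 ≤ (mass 0 r + mass 1 r) * JT (K / (1728 * (r : ℝ) ^ 2)) := fun r =>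
    mul_nonneg (add_nonneg (mass_nonneg _ _) (mass_nonneg _ _)) (JT_nonneg _)
  have hE : EE K ≤ ∑' r, 2 * C * (1728 : ℝ) ^ s * K ^ (-s) * wm (2 * s) r :=
    (Summable.of_nonneg_of_le hnn hterm hs2).tsum_le_tsum hterm hs2
  rw [tsum_mul_left] at hE
  have hKs : 0 < K ^ (-s) := by positivity
  calc c0 * EE K ≤ c0 * (2 * C * (1728 : ℝ) ^ s * K ^ (-s) * ∑' r, wm (2 * s) r) :=
        mul_le_mul_of_nonneg_left hE c0_nonneg
    _ = c0 * (2 * C * (1728 : ℝ) ^ s * ∑' r, wm (2 * s) r) * K ^ (-s) := by ring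
    _ ≤ _ := by nlinarith

theorem DD_le (K : ℝ) : c0 * DD K ≤ c0 * EE K := by
  refine mul_le_mul_of_nonneg_left ?_ c0_nonneg
  have s1 := (sm 0 {r : ℕ | K < (r : ℝ) ^ 2} fun _ => 0).add
    (sm 1 {r : ℕ | K < (r : ℝ) ^ 2} fun _ => 0)
  have s2 := (sm 0 Set.univ fun r => K / (1728 * (r : ℝ) ^ 2)).add
    (sm 1 Set.univ fun r => K / (1728 * (r : ℝ) ^ 2))
  have hp : ∀ r : ℕ, {r : ℕ | K < (r : ℝ) ^ 2}.indicator
      (fun r => (mass 0 r + mass 1 r) * Ar 1) r ≤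
        (mass 0 r + mass 1 r) * JT (K / (1728 * (r : ℝ) ^ 2)) := by
    intro r
    have h0 : 0 ≤ mass 0 r + mass 1 r := add_nonneg (mass_nonneg _ _) (mass_nonneg _ _)
    by_cases h : K < (r : ℝ) ^ 2
    · rw [Set.indicator_of_mem (show r ∈ {r : ℕ | K < (r : ℝ) ^ 2} from h)]
      rcases Nat.eq_zero_or_pos r with hr | hr
      · subst hr
        have e0 : mass 0 0 + mass 1 0 = 0 := by
          have a := mass_le 0 0
          have b := mass_le 1 0
          have a' := mass_nonneg 0 0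
          have b' := mass_nonneg 1 0
          rw [wt_zero] at a b
          linarith
        rw [e0, zero_mul, zero_mul]
      · have hr0 : (0 : ℝ) < r := by exact_mod_cast hr
        have : K / (1728 * (r : ℝ) ^ 2) < 1 := by
          rw [div_lt_one (by positivity)]
          nlinarith [sq_nonneg (r : ℝ)]
        rw [JT_small this]
    · rw [Set.indicator_of_notMem (show r ∉ {r : ℕ | K < (r : ℝ) ^ 2} from h)]
      exact mul_nonneg h0 (JT_nonneg _)
  refine Summable.tsum_le_tsum hp ?_ ?_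
  · refine s1.congr fun r => ?_
    by_cases h : r ∈ {r : ℕ | K < (r : ℝ) ^ 2}
    · rw [Set.indicator_of_mem h, Set.indicator_of_mem h, Set.indicator_of_mem h,
        JT_small (show (0 : ℝ) < 1 by norm_num)]
      ring
    · rw [Set.indicator_of_notMem h, Set.indicator_of_notMem h, Set.indicator_of_notMem h, add_zero]
  · refine s2.congr fun r => ?_
    simp only [Set.indicator_univ]
    ring

/-- the lower bound for the tail of the discriminant law -/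
theorem DD_ge : ∃ c : ℝ, 0 < c ∧ ∀ K : ℝ, 1 ≤ K → c * K ^ (-(1 / 6) : ℝ) ≤ c0 * DD K := by
  obtain ⟨h1, h2, h3, -⟩ := consts
  refine ⟨c0 * ((2 : ℝ) ^ (-(4 : ℝ) / 3) * (2 : ℝ) ^ (-(1 : ℝ) / 3) * Ar 1), by positivity,
    fun K hK => ?_⟩
  have hK0 : 0 < K := by linarith
  obtain ⟨k, hk1, hk2⟩ := exists_nat_pow_near hK (by norm_num : (1 : ℝ) < 4)
  rw [mul_assoc]
  refine mul_le_mul_of_nonneg_left ?_ h1.le
  have s1 := (sm 0 {r : ℕ | K < (r : ℝ) ^ 2} fun _ => 0).add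
    (sm 1 {r : ℕ | K < (r : ℝ) ^ 2} fun _ => 0)
  have s2 : Summable fun r : ℕ => {r : ℕ | K < (r : ℝ) ^ 2}.indicator
      (fun r => (mass 0 r + mass 1 r) * Ar 1) r := by
    refine s1.congr fun r => ?_
    by_cases h : r ∈ {r : ℕ | K < (r : ℝ) ^ 2}
    · rw [Set.indicator_of_mem h, Set.indicator_of_mem h, Set.indicator_of_mem h,
        JT_small (show (0 : ℝ) < 1 by norm_num)]
      ring
    · rw [Set.indicator_of_notMem h, Set.indicator_of_notMem h, Set.indicator_of_notMem h, add_zero]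
  have h5 : {r : ℕ | K < (r : ℝ) ^ 2}.indicator
      (fun r => (mass 0 r + mass 1 r) * Ar 1) (2 ^ (k + 1)) ≤ DD K :=
    s2.le_tsum _ fun r _ => Set.indicator_nonneg
      (fun r _ => mul_nonneg (add_nonneg (mass_nonneg _ _) (mass_nonneg _ _)) h2.le) r
  refine le_trans ?_ h5
  have hmem : 2 ^ (k + 1) ∈ {r : ℕ | K < (r : ℝ) ^ 2} := by
    rw [Set.mem_ofPred_eq]
    push_cast
    have : ((2 : ℝ) ^ (k + 1)) ^ 2 = 4 ^ (k + 1) := by
      rw [← pow_mul, mul_comm, pow_mul]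
      norm_num
    rw [this]
    exact hk2
  rw [Set.indicator_of_mem hmem]
  have h6 : (2 : ℝ) ^ (-(4 : ℝ) / 3) * ((2 : ℝ) ^ (-(1 : ℝ) / 3) * K ^ (-(1 / 6) : ℝ)) ≤
      mass 0 (2 ^ (k + 1)) + mass 1 (2 ^ (k + 1)) := by
    have a1 := mass_nonneg 1 (2 ^ (k + 1))
    rw [mass_zero, wt_two_pow, pow_succ']
    have a2 : K ^ (-(1 / 6) : ℝ) ≤ ((2 : ℝ) ^ (-(1 : ℝ) / 3)) ^ k := by
      have b1 : K ^ (-(1 / 6) : ℝ) ≤ ((4 : ℝ) ^ k) ^ (-(1 / 6) : ℝ) :=
        Real.rpow_le_rpow_of_nonpos (by positivity) hk1 (by norm_num)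
      have b2 : ((4 : ℝ) ^ k) ^ (-(1 / 6) : ℝ) = ((2 : ℝ) ^ (-(1 : ℝ) / 3)) ^ k := by
        rw [show (4 : ℝ) = 2 ^ (2 : ℝ) by norm_num, ← Real.rpow_natCast, ← Real.rpow_natCast,
          ← Real.rpow_mul (by norm_num), ← Real.rpow_mul (by norm_num),
          ← Real.rpow_mul (by norm_num)]
        congr 1
        ring
      rw [b2] at b1
      exact b1
    have a3 := mul_le_mul_of_nonneg_left (mul_le_mul_of_nonneg_left a2
      (by positivity : 0 ≤ (2 : ℝ) ^ (-(1 : ℝ) / 3))) (by positivity : 0 ≤ (2 : ℝ) ^ (-(4 : ℝ) / 3))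
    linarith
  calc (2 : ℝ) ^ (-(4 : ℝ) / 3) * (2 : ℝ) ^ (-(1 : ℝ) / 3) * Ar 1 * K ^ (-(1 / 6) : ℝ) =
        (2 : ℝ) ^ (-(4 : ℝ) / 3) * ((2 : ℝ) ^ (-(1 : ℝ) / 3) * K ^ (-(1 / 6) : ℝ)) * Ar 1 := by ring
    _ ≤ _ := mul_le_mul_of_nonneg_right h6 h2.le

/-- **Almost all curves.** -/
theorem HC_psi {ψ : ℕ → ℝ} (hψ : Tendsto ψ atTop atTop) :
    HC (fun W => ψ (cond W) * (cond W : ℝ) ^ 2 < (ht W : ℝ)) 0 := by
  unfold HC
  rw [Metric.tendsto_nhds]
  intro ε hε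
  -- choice of the level
  obtain ⟨C, hC, hE⟩ := EE_le (by norm_num : (0 : ℝ) < 1 / 12) (by norm_num)
  have h0 : Tendsto (fun K : ℝ => C * K ^ (-(1 / 12) : ℝ)) atTop (𝓝 (C * 0)) :=
    (tendsto_rpow_neg_atTop (by norm_num)).const_mul C
  rw [mul_zero] at h0
  obtain ⟨K, hK1, hK2⟩ := ((h0.eventually (gt_mem_nhds (by positivity : (0 : ℝ) < ε / 4))).and
    (eventually_ge_atTop 1)).exists
  have hEK : c0 * EE K < ε / 4 := (hE K hK2).trans_lt hK1
  obtain ⟨R0, hR0⟩ := Filter.eventually_atTop.1 (hψ.eventually (eventually_ge_atTop K))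
  have h2 := (Metric.tendsto_nhds.1 (HC_height K)) (ε / 4) (by positivity)
  have h3 : Tendsto (fun X : ℝ => ((Cu (fun _ => True) (R0 : ℝ)).ncard : ℝ) / X ^ ((2 : ℝ) / 3))
      atTop (𝓝 0) := tendsto_const_nhds.div_atTop (tendsto_rpow_atTop (by norm_num))
  have h4 := (Metric.tendsto_nhds.1 h3) (ε / 4) (by positivity)
  filter_upwards [h2, h4, eventually_gt_atTop 0] with X h5 h6 hX
  have hXp : 0 < X ^ ((2 : ℝ) / 3) := by positivity
  have hcov : Cu (fun W => ψ (cond W) * (cond W : ℝ) ^ 2 < (ht W : ℝ)) X ⊆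
      Cu (fun _ => True) (R0 : ℝ) ∪ Cu (fun W => K * (cond W : ℝ) ^ 2 < (ht W : ℝ)) X := by
    rintro q ⟨W, w1, w2, w3, w4, w5, w6⟩
    rcases le_or_gt (cond W) R0 with h | h
    · exact Or.inl ⟨W, w1, w2, w3, w4, by exact_mod_cast h, trivial⟩
    · refine Or.inr ⟨W, w1, w2, w3, w4, w5, ?_⟩
      have h7 := hR0 (cond W) h.le
      exact lt_of_le_of_lt (mul_le_mul_of_nonneg_right h7 (by positivity)) w6
  have h7 := (Set.ncard_le_ncard hcov ((Cu_finite _ _).union (Cu_finite _ _))).trans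
    (Set.ncard_union_le _ _)
  have h8 : ((Cu (fun W => ψ (cond W) * (cond W : ℝ) ^ 2 < (ht W : ℝ)) X).ncard : ℝ) ≤
      (Cu (fun _ => True) (R0 : ℝ)).ncard +
        (Cu (fun W => K * (cond W : ℝ) ^ 2 < (ht W : ℝ)) X).ncard := by exact_mod_cast h7
  rw [Real.dist_eq] at h5 h6 ⊢
  rw [sub_zero] at h6 ⊢
  rw [abs_of_nonneg (by positivity)] at h6 ⊢
  rw [abs_lt] at h5
  calc ((Cu (fun W => ψ (cond W) * (cond W : ℝ) ^ 2 < (ht W : ℝ)) X).ncard : ℝ) /
        X ^ ((2 : ℝ) / 3) ≤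
        ((Cu (fun _ => True) (R0 : ℝ)).ncard +
        (Cu (fun W => K * (cond W : ℝ) ^ 2 < (ht W : ℝ)) X).ncard) / X ^ ((2 : ℝ) / 3) :=
        (div_le_div_iff_of_pos_right hXp).2 h8
    _ = ((Cu (fun _ => True) (R0 : ℝ)).ncard : ℝ) / X ^ ((2 : ℝ) / 3) +
        ((Cu (fun W => K * (cond W : ℝ) ^ 2 < (ht W : ℝ)) X).ncard : ℝ) / X ^ ((2 : ℝ) / 3) := by
        ring
    _ < ε := by linarith [h5.2]

end Pool.Agent.R476.SR
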