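import Mathlib

/-! The weight of the repeated part. -/

set_option autoImplicit false

namespace Pool.Agent.R476.SR

open Finset Filter Topology

/-- the factor of a prime -/
noncomputable def hq (q : ℕ) : ℝ := 3 * ((q : ℝ) - 1) / ((q : ℝ) ^ 2 + (q : ℝ) - 3)

/-- the weight -/
noncomputable def wt (w : ℕ) : ℝ := (w : ℝ) ^ (-(1 : ℝ) / 3) * ∏ q ∈ w.primeFactors, hq q

theorem hq_two : hq 2 = 1 := by
  unfold hq
  norm_num

theorem hq_nonneg {q : ℕ} (h : q.Prime) : 0 ≤ hq q := by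
  have h2 : (2 : ℝ) ≤ q := by exact_mod_cast h.two_le
  unfold hq
  refine div_nonneg (by linarith) (by nlinarith)

theorem hq_pos {q : ℕ} (h : q.Prime) : 0 < hq q := by
  have h2 : (2 : ℝ) ≤ q := by exact_mod_cast h.two_le
  unfold hq
  refine div_pos (by linarith) (by nlinarith)

theorem hq_le {q : ℕ} (h : q.Prime) : hq q ≤ 3 / q := by
  have h2 : (2 : ℝ) ≤ q := by exact_mod_cast h.two_le
  unfold hq
  rw [div_le_div_iff₀ (by nlinarith) (by linarith)]
  nlinarith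

theorem wt_nonneg (w : ℕ) : 0 ≤ wt w :=
  mul_nonneg (by positivity) (prod_nonneg fun _ h => hq_nonneg (Nat.prime_of_mem_primeFactors h))

theorem wt_zero : wt 0 = 0 := by
  unfold wt
  rw [Nat.cast_zero, Real.zero_rpow (by norm_num), zero_mul]

theorem wt_one : wt 1 = 1 := by
  unfold wt
  simp

theorem wt_mul {m n : ℕ} (h : Nat.Coprime m n) : wt (m * n) = wt m * wt n := by
  unfold wt
  rw [h.primeFactors_mul, prod_union h.disjoint_primeFactors]
  push_cast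
  rw [Real.mul_rpow (Nat.cast_nonneg _) (Nat.cast_nonneg _)]
  ring

theorem wt_two (w : ℕ) : wt (2 * w) = (2 : ℝ) ^ (-(1 : ℝ) / 3) * wt w := by
  rcases Nat.eq_zero_or_pos w with rfl | hw
  · rw [mul_zero, wt_zero, mul_zero]
  · unfold wt
    push_cast
    rw [Real.mul_rpow (by norm_num) (Nat.cast_nonneg _), mul_assoc]
    congr 2
    rw [Nat.primeFactors_mul (by norm_num) hw.ne', Nat.Prime.primeFactors Nat.prime_two]
    by_cases h : 2 ∈ w.primeFactors
    · rw [Finset.union_eq_right.2 (Finset.singleton_subset_iff.2 h)]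
    · rw [Finset.prod_union (Finset.disjoint_singleton_left.2 h), Finset.prod_singleton, hq_two,
        one_mul]

theorem wt_eight (w : ℕ) : wt (8 * w) = 1 / 2 * wt w := by
  have e : 8 * w = 2 * (2 * (2 * w)) := by ring
  rw [e, wt_two, wt_two, wt_two]
  have : (2 : ℝ) ^ (-(1 : ℝ) / 3) * ((2 : ℝ) ^ (-(1 : ℝ) / 3) * (2 : ℝ) ^ (-(1 : ℝ) / 3)) = 1 / 2 := by
    rw [← Real.rpow_add (by norm_num), ← Real.rpow_add (by norm_num)]
    norm_num
  calc _ = ((2 : ℝ) ^ (-(1 : ℝ) / 3) * ((2 : ℝ) ^ (-(1 : ℝ) / 3) * (2 : ℝ) ^ (-(1 : ℝ) / 3))) *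
        wt w := by ring
    _ = _ := by rw [this]

theorem wt_sixteen (w : ℕ) : wt (16 * w) = (2 : ℝ) ^ (-(4 : ℝ) / 3) * wt w := by
  have e : 16 * w = 2 * (8 * w) := by ring
  rw [e, wt_two, wt_eight]
  have : (2 : ℝ) ^ (-(4 : ℝ) / 3) = (2 : ℝ) ^ (-(1 : ℝ) / 3) * (1 / 2) := by
    rw [show -(4 : ℝ) / 3 = -(1 : ℝ) / 3 + (-1) by norm_num, Real.rpow_add (by norm_num),
      Real.rpow_neg_one]
    norm_num
  rw [this]
  ring

theorem wt_two_pow (k : ℕ) : wt (2 ^ k) = ((2 : ℝ) ^ (-(1 : ℝ) / 3)) ^ k := by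
  induction k with
  | zero => rw [pow_zero, pow_zero, wt_one]
  | succ k ih => rw [pow_succ', wt_two, ih, pow_succ']

/-- summation over the multiples of 16 -/
theorem sum16 (g : ℕ → ℝ) : ∑' w, {w : ℕ | 16 ∣ w}.indicator (fun w => wt w * g (w / 16)) w =
    (2 : ℝ) ^ (-(4 : ℝ) / 3) * ∑' r, wt r * g r := by
  classical
  have hinj : Function.Injective fun r : ℕ => 16 * r := fun a b h => by
    simp only at h
    omega
  rw [← hinj.tsum_eq, ← tsum_mul_left]
  · refine tsum_congr fun r => ?_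
    have e : 16 * r / 16 = r := by omega
    rw [Set.indicator_of_mem (show 16 * r ∈ {w : ℕ | 16 ∣ w} from ⟨r, rfl⟩), e, wt_sixteen]
    ring
  · intro w hw
    rw [Function.mem_support] at hw
    have h1 : w ∈ {w : ℕ | 16 ∣ w} := by
      by_contra h
      exact hw (Set.indicator_of_notMem h _)
    obtain ⟨r, hr⟩ := h1
    exact ⟨r, hr.symm⟩

/-- summation over the odd multiples of 8 -/
theorem sum8 (g : ℕ → ℝ) :
    ∑' w, {w : ℕ | 8 ∣ w ∧ ¬ 16 ∣ w}.indicator (fun w => wt w * g (w / 8)) w =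
    1 / 2 * ∑' r, {r : ℕ | ¬ 2 ∣ r}.indicator (fun r => wt r * g r) r := by
  classical
  have hinj : Function.Injective fun r : ℕ => 8 * r := fun a b h => by
    simp only at h
    omega
  rw [← hinj.tsum_eq, ← tsum_mul_left]
  · refine tsum_congr fun r => ?_
    have e : 8 * r / 8 = r := by omega
    by_cases hr : ¬ 2 ∣ r
    · rw [Set.indicator_of_mem (show r ∈ {r : ℕ | ¬ 2 ∣ r} from hr),
        Set.indicator_of_mem (show 8 * r ∈ {w : ℕ | 8 ∣ w ∧ ¬ 16 ∣ w} from ⟨⟨r, rfl⟩, by omega⟩),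
        e, wt_eight]
      ring
    · rw [Set.indicator_of_notMem (show r ∉ {r : ℕ | ¬ 2 ∣ r} from hr),
        Set.indicator_of_notMem (show 8 * r ∉ {w : ℕ | 8 ∣ w ∧ ¬ 16 ∣ w} from
          fun h => hr (by have := h.2; omega)), mul_zero]
  · intro w hw
    rw [Function.mem_support] at hw
    have h1 : w ∈ {w : ℕ | 8 ∣ w ∧ ¬ 16 ∣ w} := by
      by_contra h
      exact hw (Set.indicator_of_notMem h _)
    obtain ⟨⟨r, hr⟩, -⟩ := h1
    exact ⟨r, hr.symm⟩

/-- the odd part of the sum -/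
theorem sum_odd (hs : Summable wt) : ∑' r, {r | ¬ 2 ∣ r}.indicator wt r =
    (1 - (2 : ℝ) ^ (-(1 : ℝ) / 3)) * ∑' r, wt r := by
  classical
  have h1 : ∑' r, {r : ℕ | 2 ∣ r}.indicator wt r = (2 : ℝ) ^ (-(1 : ℝ) / 3) * ∑' r, wt r := by
    have hinj : Function.Injective fun r : ℕ => 2 * r := fun a b h => by
      simp only at h
      omega
    rw [← hinj.tsum_eq, ← tsum_mul_left]
    · refine tsum_congr fun r => ?_
      rw [Set.indicator_of_mem, wt_two]
      exact ⟨r, rfl⟩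
    · intro w hw
      rw [Function.mem_support] at hw
      have h1 : w ∈ {w | 2 ∣ w} := by
        by_contra h
        exact hw (Set.indicator_of_notMem h _)
      obtain ⟨r, hr⟩ := h1
      exact ⟨r, hr.symm⟩
  have h2 : ∑' r, wt r = ∑' r, {r : ℕ | 2 ∣ r}.indicator wt r +
      ∑' r, {r : ℕ | ¬ 2 ∣ r}.indicator wt r := by
    rw [← (hs.indicator _).tsum_add (hs.indicator _)]
    refine tsum_congr fun r => ?_
    by_cases h : 2 ∣ r
    · rw [Set.indicator_of_mem (show r ∈ {r : ℕ | 2 ∣ r} from h),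
        Set.indicator_of_notMem (show r ∉ {r : ℕ | ¬ 2 ∣ r} from fun h' => h' h), add_zero]
    · rw [Set.indicator_of_notMem (show r ∉ {r : ℕ | 2 ∣ r} from h),
        Set.indicator_of_mem (show r ∈ {r : ℕ | ¬ 2 ∣ r} from h), zero_add]
  linarith

/-- the weight times a power -/
noncomputable def wm (s : ℝ) (w : ℕ) : ℝ := wt w * (w : ℝ) ^ s

theorem wm_nonneg (s : ℝ) (w : ℕ) : 0 ≤ wm s w := mul_nonneg (wt_nonneg w) (by positivity)

theorem wm_one (s : ℝ) : wm s 1 = 1 := by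
  unfold wm
  rw [wt_one, Nat.cast_one, Real.one_rpow, one_mul]

theorem wm_mul (s : ℝ) {m n : ℕ} (h : Nat.Coprime m n) : wm s (m * n) = wm s m * wm s n := by
  unfold wm
  rw [wt_mul h]
  push_cast
  rw [Real.mul_rpow (Nat.cast_nonneg _) (Nat.cast_nonneg _)]
  ring

theorem wm_pow (s : ℝ) {q : ℕ} (hq' : q.Prime) (e : ℕ) :
    wm s (q ^ (e + 1)) = hq q * (q : ℝ) ^ (s - 1 / 3) * ((q : ℝ) ^ (s - 1 / 3)) ^ e := by
  have hq0 : (0 : ℝ) < q := by exact_mod_cast hq'.pos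
  unfold wm wt
  rw [Nat.primeFactors_prime_pow (Nat.succ_ne_zero e) hq', prod_singleton]
  push_cast
  have e1 : ((q : ℝ) ^ (e + 1)) ^ (-(1 : ℝ) / 3) * ((q : ℝ) ^ (e + 1)) ^ s =
      (q : ℝ) ^ (s - 1 / 3) * ((q : ℝ) ^ (s - 1 / 3)) ^ e := by
    rw [← Real.rpow_add (by positivity), ← pow_succ', ← Real.rpow_natCast (q : ℝ) (e + 1),
      ← Real.rpow_mul hq0.le, ← Real.rpow_natCast ((q : ℝ) ^ (s - 1 / 3)) (e + 1),
      ← Real.rpow_mul hq0.le]
    congr 1
    push_cast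
    ring
  calc _ = hq q * (((q : ℝ) ^ (e + 1)) ^ (-(1 : ℝ) / 3) * ((q : ℝ) ^ (e + 1)) ^ s) := by ring
    _ = _ := by rw [e1]; ring

theorem wm_local {s : ℝ} (hs : s < 1 / 3) {q : ℕ} (hq' : q.Prime) :
    HasSum (fun e => wm s (q ^ e))
      (1 + hq q * (q : ℝ) ^ (s - 1 / 3) * (1 - (q : ℝ) ^ (s - 1 / 3))⁻¹) := by
  have hq1 : (1 : ℝ) < q := by exact_mod_cast hq'.one_lt
  have hz0 : 0 ≤ (q : ℝ) ^ (s - 1 / 3) := by positivity
  have hz1 : (q : ℝ) ^ (s - 1 / 3) < 1 := Real.rpow_lt_one_of_one_lt_of_neg hq1 (by linarith)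
  have h1 := (hasSum_geometric_of_lt_one hz0 hz1).mul_left (hq q * (q : ℝ) ^ (s - 1 / 3))
  have h2 : HasSum (fun e => wm s (q ^ (e + 1)))
      (hq q * (q : ℝ) ^ (s - 1 / 3) * (1 - (q : ℝ) ^ (s - 1 / 3))⁻¹) := by
    have e : (fun e => wm s (q ^ (e + 1))) = fun e : ℕ =>
        hq q * (q : ℝ) ^ (s - 1 / 3) * ((q : ℝ) ^ (s - 1 / 3)) ^ e := funext fun e => wm_pow s hq' e
    rw [e]
    exact h1
  have h3 := (hasSum_nat_add_iff (f := fun e => wm s (q ^ e)) 1).1 h2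
  rw [Finset.sum_range_one, pow_zero, wm_one] at h3
  rw [add_comm]
  exact h3

/-- **The moments of the weight.** -/
theorem wm_summable {s : ℝ} (hs : s < 1 / 3) : Summable (wm s) := by
  obtain ⟨z, hz⟩ : ∃ z : ℝ, z = (2 : ℝ) ^ (s - 1 / 3) := ⟨_, rfl⟩
  have hz0 : 0 < z := by rw [hz]; positivity
  have hz1 : z < 1 := by
    rw [hz]
    exact Real.rpow_lt_one_of_one_lt_of_neg (by norm_num) (by linarith)
  have hsum : Summable fun n : ℕ => (n : ℝ) ^ (s - 4 / 3) :=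
    Real.summable_nat_rpow.2 (by linarith)
  obtain ⟨C, hC⟩ : ∃ C : ℝ, C = 3 * (1 - z)⁻¹ := ⟨_, rfl⟩
  have hC0 : 0 ≤ C := by
    rw [hC]
    have : 0 < 1 - z := by linarith
    positivity
  refine summable_of_sum_range_le (c := Real.exp (C * ∑' n : ℕ, (n : ℝ) ^ (s - 4 / 3)))
    (wm_nonneg s) fun N => ?_
  have h1 := (EulerProduct.summable_and_hasSum_smoothNumbers_prod_primesBelow_tsum
    (f := wm s) (wm_one s) (fun {m n} h => wm_mul s h)
    (fun {p} hp => by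
      have := (wm_local hs hp).summable
      refine this.congr fun e => ?_
      rw [Real.norm_eq_abs, abs_of_nonneg (wm_nonneg _ _)]) N).2
  have h2 : HasSum ((Nat.smoothNumbers N).indicator (wm s))
      (∏ p ∈ N.primesBelow, ∑' n, wm s (p ^ n)) := hasSum_subtype_iff_indicator.1 h1
  have h3 : ∑ i ∈ range N, wm s i ≤ ∑ i ∈ range N, (Nat.smoothNumbers N).indicator (wm s) i := by
    refine sum_le_sum fun i hi => ?_
    rcases Nat.eq_zero_or_pos i with rfl | h0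
    · have : wm s 0 = 0 := by
        unfold wm
        rw [wt_zero, zero_mul]
      rw [this]
      exact Set.indicator_nonneg (fun w _ => wm_nonneg s w) _
    · rw [Set.indicator_of_mem (Nat.mem_smoothNumbers_of_lt h0 (mem_range.1 hi))]
  have h4 : ∑ i ∈ range N, (Nat.smoothNumbers N).indicator (wm s) i ≤
      ∏ p ∈ N.primesBelow, ∑' n, wm s (p ^ n) :=
    sum_le_hasSum _ (fun i _ => Set.indicator_nonneg (fun w _ => wm_nonneg s w) _) h2
  refine (h3.trans h4).trans ?_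
  have h5 : ∏ p ∈ N.primesBelow, ∑' n, wm s (p ^ n) ≤
      ∏ p ∈ N.primesBelow, Real.exp (C * (p : ℝ) ^ (s - 4 / 3)) := by
    refine prod_le_prod (fun p hp => tsum_nonneg fun n => wm_nonneg s _) fun p hp => ?_
    have hp' := Nat.prime_of_mem_primesBelow hp
    have hp2 : (2 : ℝ) ≤ p := by exact_mod_cast hp'.two_le
    rw [(wm_local hs hp').tsum_eq]
    refine le_trans ?_ (Real.add_one_le_exp _)
    rw [add_comm]
    refine add_le_add_left ?_ _
    have a1 : (p : ℝ) ^ (s - 1 / 3) ≤ z := by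
      rw [hz]
      exact Real.rpow_le_rpow_of_nonpos (by norm_num) hp2 (by linarith)
    have a2 : (1 - (p : ℝ) ^ (s - 1 / 3))⁻¹ ≤ (1 - z)⁻¹ :=
      inv_anti₀ (by linarith) (by linarith)
    have a3 : hq p * (p : ℝ) ^ (s - 1 / 3) ≤ 3 * (p : ℝ) ^ (s - 4 / 3) := by
      have b1 := hq_le hp'
      have b2 : (p : ℝ) ^ (s - 4 / 3) = (p : ℝ) ^ (s - 1 / 3) / p := by
        rw [← Real.rpow_sub_one (by positivity)]
        congr 1
        ring
      rw [b2]
      calc hq p * (p : ℝ) ^ (s - 1 / 3) ≤ 3 / p * (p : ℝ) ^ (s - 1 / 3) :=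
            mul_le_mul_of_nonneg_right b1 (by positivity)
        _ = _ := by ring
    calc hq p * (p : ℝ) ^ (s - 1 / 3) * (1 - (p : ℝ) ^ (s - 1 / 3))⁻¹ ≤
          3 * (p : ℝ) ^ (s - 4 / 3) * (1 - z)⁻¹ := by
            refine mul_le_mul a3 a2 (inv_nonneg.2 (by linarith)) (by positivity)
      _ = C * (p : ℝ) ^ (s - 4 / 3) := by rw [hC]; ring
  refine h5.trans ?_
  rw [← Real.exp_sum, Real.exp_le_exp, ← mul_sum]
  exact mul_le_mul_of_nonneg_left (hsum.sum_le_tsum _ fun i _ => by positivity) hC0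

end Pool.Agent.R476.SR
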