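import Pool.Agent.R476.SR.Cone
import Pool.Agent.R476.SR.Wt

/-! The triples with repeated part divisible by 8, by repeated part and invariant. -/

set_option autoImplicit false

namespace Pool.Agent.R476.SR

open Finset Filter Topology Pool.Agent.TH498.AR Pool.Agent.Y911.JL
open Pool.Agent.Results.MP_1ea25c_nt.AlmostAllTriples

theorem wt_rho : wt = rho := rfl

/-- summation over a class of repeated parts -/
theorem master_aux (D : Set ℕ) (d : ℕ) (S : Set ℕ) (t : ℕ → ℝ) :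
    Tendsto (fun X : ℝ => (({p | p ∈ triples X ∧ (psi3 ∅ p ∈ D ∧ psi3 ∅ p / d ∈ S ∧
      Inv (t (psi3 ∅ p / d)) p)} : Set (ℕ × ℕ)).ncard : ℝ) / X ^ ((2 : ℝ) / 3)) atTop
      (𝓝 (c0 * ∑' w, D.indicator
        (fun w => wt w * S.indicator (fun r => JT (t r)) (w / d)) w)) := by
  classical
  have h := law (Q := fun p => psi3 ∅ p ∈ D ∧ psi3 ∅ p / d ∈ S ∧ Inv (t (psi3 ∅ p / d)) p)
    (l := fun w => c0 * D.indicator (fun w => wt w * S.indicator (fun r => JT (t r)) (w / d)) w)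
    (fun w => mul_nonneg c0_nonneg (Set.indicator_nonneg (fun w _ => mul_nonneg (wt_nonneg w)
      (Set.indicator_nonneg (fun r _ => JT_nonneg _) _)) w)) fun w => by
      by_cases hw : w ∈ D ∧ w / d ∈ S
      · rw [Set.indicator_of_mem hw.1, Set.indicator_of_mem hw.2, ← mul_assoc, wt_rho]
        refine (cone_limit w (t (w / d))).congr fun X => ?_
        congr 3
        ext p
        constructor
        · rintro ⟨a1, a2, a3⟩
          exact ⟨a1, ⟨by rw [a3]; exact hw.1, by rw [a3]; exact hw.2, by rw [a3]; exact a2⟩, a3⟩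
        · rintro ⟨a1, ⟨-, -, a2⟩, a3⟩
          rw [a3] at a2
          exact ⟨a1, a2, a3⟩
      · have e0 : D.indicator (fun w => wt w * S.indicator (fun r => JT (t r)) (w / d)) w = 0 := by
          by_cases h1 : w ∈ D
          · rw [Set.indicator_of_mem h1, Set.indicator_of_notMem (fun h2 => hw ⟨h1, h2⟩), mul_zero]
          · rw [Set.indicator_of_notMem h1]
        rw [e0, mul_zero]
        have e : ∀ X : ℝ, ({p | p ∈ triples X ∧ (psi3 ∅ p ∈ D ∧ psi3 ∅ p / d ∈ S ∧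
            Inv (t (psi3 ∅ p / d)) p) ∧ psi3 ∅ p = w} : Set (ℕ × ℕ)) = ∅ := fun X => by
          rw [Set.eq_empty_iff_forall_notMem]
          rintro p ⟨-, ⟨a1, a2, -⟩, a3⟩
          rw [a3] at a1 a2
          exact hw ⟨a1, a2⟩
        simp only [e, Set.ncard_empty]
        simp
  have h2 := h.2
  rw [tsum_mul_left] at h2
  exact h2

/-- the even conductors -/
theorem master0 (S : Set ℕ) (t : ℕ → ℝ) :
    Tendsto (fun X : ℝ => (({p | p ∈ triples X ∧ 16 ∣ psi3 ∅ p ∧ psi3 ∅ p / 16 ∈ S ∧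
      Inv (t (psi3 ∅ p / 16)) p} : Set (ℕ × ℕ)).ncard : ℝ) / X ^ ((2 : ℝ) / 3)) atTop
      (𝓝 (c0 * ((2 : ℝ) ^ (-(4 : ℝ) / 3) * ∑' r, wt r * S.indicator (fun r => JT (t r)) r))) := by
  have h := master_aux {w : ℕ | 16 ∣ w} 16 S t
  rw [sum16] at h
  exact h

/-- the odd conductors -/
theorem master1 (S : Set ℕ) (t : ℕ → ℝ) :
    Tendsto (fun X : ℝ => (({p | p ∈ triples X ∧ (8 ∣ psi3 ∅ p ∧ ¬ 16 ∣ psi3 ∅ p) ∧
      psi3 ∅ p / 8 ∈ S ∧ Inv (t (psi3 ∅ p / 8)) p} : Set (ℕ × ℕ)).ncard : ℝ) /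
        X ^ ((2 : ℝ) / 3)) atTop
      (𝓝 (c0 * (1 / 2 * ∑' r, {r : ℕ | ¬ 2 ∣ r}.indicator
        (fun r => wt r * S.indicator (fun r => JT (t r)) r) r))) := by
  have h := master_aux {w : ℕ | 8 ∣ w ∧ ¬ 16 ∣ w} 8 S t
  rw [sum8] at h
  exact h

end Pool.Agent.R476.SR
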