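import Pool.Agent.R476.SR.Master
import Pool.Agent.Y680.S.Top

/-! From the triples to the curves. -/

set_option autoImplicit false

namespace Pool.Agent.R476.SR

open Finset Filter Topology Pool.Agent.TH498.AR Pool.Agent.Y911.JL Pool.Agent.H925R.Szpiro
open Pool.Agent.Results.MP_1ea25c_nt.AlmostAllTriples Pool.Agent.Y680.S

/-- the two classes of pairs -/
theorem split (Q : ℕ × ℕ → Prop) {l0 l1 : ℝ}
    (h0 : Tendsto (fun X : ℝ => (({p | p ∈ triples X ∧ 16 ∣ psi3 ∅ p ∧ Q p} :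
      Set (ℕ × ℕ)).ncard : ℝ) / X ^ ((2 : ℝ) / 3)) atTop (𝓝 l0))
    (h1 : Tendsto (fun X : ℝ => (({p | p ∈ triples X ∧ (8 ∣ psi3 ∅ p ∧ ¬ 16 ∣ psi3 ∅ p) ∧ Q p} :
      Set (ℕ × ℕ)).ncard : ℝ) / X ^ ((2 : ℝ) / 3)) atTop (𝓝 l1)) :
    Tendsto (fun X : ℝ => (({p | p ∈ GT th X ∧ Q p} : Set (ℕ × ℕ)).ncard : ℝ) /
      X ^ ((2 : ℝ) / 3)) atTop (𝓝 (l0 + (2 : ℝ) ^ ((2 : ℝ) / 3) * l1)) := by
  have h2 : Tendsto (fun X : ℝ => (2 : ℝ) ^ ((2 : ℝ) / 3) *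
      ((({p | p ∈ triples (2 * X) ∧ (8 ∣ psi3 ∅ p ∧ ¬ 16 ∣ psi3 ∅ p) ∧ Q p} :
      Set (ℕ × ℕ)).ncard : ℝ) / (2 * X) ^ ((2 : ℝ) / 3))) atTop
      (𝓝 ((2 : ℝ) ^ ((2 : ℝ) / 3) * l1)) := by
    refine Tendsto.const_mul _ (h1.comp ?_)
    exact tendsto_id.const_mul_atTop (by norm_num)
  refine (h0.add h2).congr' ?_
  filter_upwards [eventually_gt_atTop 0] with X hX
  obtain ⟨A, hA⟩ : ∃ A : Set (ℕ × ℕ), A = {p | p ∈ triples X ∧ 16 ∣ psi3 ∅ p ∧ Q p} := ⟨_, rfl⟩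
  obtain ⟨B, hB⟩ : ∃ B : Set (ℕ × ℕ), B = {p | p ∈ triples (2 * X) ∧
    (8 ∣ psi3 ∅ p ∧ ¬ 16 ∣ psi3 ∅ p) ∧ Q p} := ⟨_, rfl⟩
  have fA : A.Finite := by
    rw [hA]
    exact (Pool.Agent.Y911.AA.triples_finite' X).subset fun p hp => hp.1
  have fB : B.Finite := by
    rw [hB]
    exact (Pool.Agent.Y911.AA.triples_finite' (2 * X)).subset fun p hp => hp.1
  have hU : ({p | p ∈ GT th X ∧ Q p} : Set (ℕ × ℕ)) = A ∪ B := by
    rw [hA, hB]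
    ext p
    constructor
    · rintro ⟨hp, hq⟩
      have h0 := theta_pos th_nonneg hp
      obtain ⟨a1, a2, a3, a4⟩ := hp
      by_cases h16 : 16 ∣ psi3 ∅ p
      · refine Or.inl ⟨⟨a1, a2, a3, ?_⟩, h16, hq⟩
        rw [show th (psi3 ∅ p) = 1 from if_pos h16, one_mul] at a4
        exact a4
      · by_cases h8 : 8 ∣ psi3 ∅ p
        · refine Or.inr ⟨⟨a1, a2, a3, ?_⟩, ⟨h8, h16⟩, hq⟩
          have e : th (psi3 ∅ p) = 2 := by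
            unfold th
            rw [if_neg h16, if_pos h8]
          rw [e] at a4
          exact a4
        · exfalso
          unfold th at h0
          rw [if_neg h16, if_neg h8] at h0
          exact lt_irrefl _ h0
    · rintro (⟨⟨a1, a2, a3, a4⟩, h16, hq⟩ | ⟨⟨a1, a2, a3, a4⟩, ⟨h8, h16⟩, hq⟩)
      · refine ⟨⟨a1, a2, a3, ?_⟩, hq⟩
        rw [show th (psi3 ∅ p) = 1 from if_pos h16, one_mul]
        exact a4
      · refine ⟨⟨a1, a2, a3, ?_⟩, hq⟩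
        have e : th (psi3 ∅ p) = 2 := by
          unfold th
          rw [if_neg h16, if_pos h8]
        rw [e]
        exact a4
  have hd : Disjoint A B := by
    rw [Set.disjoint_left, hA, hB]
    rintro p ⟨-, a1, -⟩ ⟨-, ⟨-, a2⟩, -⟩
    exact a2 a1
  have hX1 : X ^ ((2 : ℝ) / 3) ≠ 0 := by positivity
  have h21 : (2 : ℝ) ^ ((2 : ℝ) / 3) ≠ 0 := by positivity
  rw [hU, Set.ncard_union_eq hd fA fB, ← hA, ← hB, Real.mul_rpow (by norm_num) hX.le]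
  push_cast
  field_simp

/-- the pair of a curve -/
structure Att (W : WeierstrassCurve ℤ) (p : ℕ × ℕ) : Prop where
  h1 : 0 < p.1
  h2 : p.1 ≤ p.2
  h3 : Nat.Coprime p.1 p.2
  h4 : 16 ∣ p.1 * p.2 * (p.1 + p.2)
  h5 : (W.c₄, W.c₆) = Pool.Agent.Y680.S.ff p
  h6 : 256 * W.Δ = (((p.1 * p.2 * (p.1 + p.2) : ℕ)) : ℤ) ^ 2

/-- the curves with a property -/
def Cu (P : WeierstrassCurve ℤ → Prop) (X : ℝ) : Set (ℤ × ℤ) :=
  {q | ∃ W : WeierstrassCurve ℤ, W.Δ ≠ 0 ∧ IsCoprime W.c₄ W.Δ ∧ Full W ∧ q = (W.c₄, W.c₆) ∧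
    (cond W : ℝ) ≤ X ∧ P W}

theorem Cu_eq {P : WeierstrassCurve ℤ → Prop} {Q : ℕ × ℕ → Prop}
    (h : ∀ W p, Att W p → (P W ↔ Q p)) (X : ℝ) : Cu P X = Pool.Agent.Y680.S.ff '' {p | p ∈ GT th X ∧ Q p} := by
  ext q
  constructor
  · rintro ⟨W, w1, w2, w3, rfl, w5, w6⟩
    obtain ⟨p, a1, a2, a3, a4, a5, a6⟩ := exists_pair W w1 w2 w3
    refine ⟨p, ⟨⟨a1, a2, a3, ?_⟩, (h W p ⟨a1, a2, a3, a4, a5, a6⟩).1 w6⟩, a5.symm⟩
    exact (cond_iff a1 (by omega) a3 a4 a6 X).1 w5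
  · rintro ⟨p, ⟨hp, hq⟩, rfl⟩
    have h0 := theta_pos th_nonneg hp
    obtain ⟨a1, a2, a3, a4⟩ := hp
    have h16 := dvd_of_th a3 h0
    obtain ⟨W, w1, w2, w3, w4, w5⟩ := curve_of a1 a2 a3 h16
    exact ⟨W, w1, w2, w3, w4.symm, (cond_iff a1 (by omega) a3 h16 w5 X).2 a4,
      (h W p ⟨a1, a2, a3, h16, w4, w5⟩).2 hq⟩

theorem Cu_finite (P : WeierstrassCurve ℤ → Prop) (X : ℝ) : (Cu P X).Finite := by
  refine Set.Finite.subset ((GT_finite X).image Pool.Agent.Y680.S.ff) ?_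
  rw [← SC_eq]
  rintro q ⟨W, w1, w2, w3, w4, w5, -⟩
  exact ⟨W, w1, w2, w3, w4, w5⟩

theorem Cu_ncard {P : WeierstrassCurve ℤ → Prop} {Q : ℕ × ℕ → Prop}
    (h : ∀ W p, Att W p → (P W ↔ Q p)) (X : ℝ) :
    (Cu P X).ncard = ({p | p ∈ GT th X ∧ Q p} : Set (ℕ × ℕ)).ncard := by
  rw [Cu_eq h]
  exact ((ff_injOn X).mono fun p hp => hp.1).ncard_image

/-- the quotient `√Δ / N` of a pair -/
def rr (p : ℕ × ℕ) : ℕ := if 16 ∣ psi3 ∅ p then psi3 ∅ p / 16 else psi3 ∅ p / 8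

/-- conductor and quotient -/
theorem Att.facts {W : WeierstrassCurve ℤ} {p : ℕ × ℕ} (h : Att W p) :
    (cond W % 2 = 0 ↔ 16 ∣ psi3 ∅ p) ∧ 0 < rr p ∧ 0 < cond W ∧
      W.Δ = ((rr p * cond W : ℕ) : ℤ) ^ 2 := by
  obtain ⟨a1, a2, a3, a4, -, a6⟩ := h
  have a2' : 0 < p.2 := by omega
  have hn : 0 < p.1 * p.2 * (p.1 + p.2) := by positivity
  have hpsi := psi_eq a3
  obtain ⟨k, hk⟩ := a4
  rw [hk] at a6 hn hpsi
  have hk0 : 0 < k := by omega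
  have hΔ : W.Δ = (k : ℤ) ^ 2 := by
    have : 256 * W.Δ = 256 * (k : ℤ) ^ 2 := by rw [a6]; push_cast; ring
    linarith
  have hcond : cond W = rd k := by
    unfold Pool.Agent.H925R.Szpiro.cond rd
    rw [hΔ, Int.natAbs_pow, Int.natAbs_natCast, Nat.primeFactors_pow _ (by norm_num)]
  obtain ⟨b1, b2⟩ := psi_two hk0 hpsi
  have hrd : 0 < rd k := Finset.prod_pos fun p hp => (Nat.prime_of_mem_primeFactors hp).pos
  obtain ⟨w, hw⟩ : ∃ w, w = psi3 ∅ p := ⟨_, rfl⟩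
  unfold rr
  rw [← hw] at hpsi b1 b2 ⊢
  rw [hcond]
  by_cases h2 : 2 ∣ k
  · obtain ⟨r, hr⟩ := b1 h2
    have e1 : r * rd k = k := by
      rw [rd_16_even hk0 h2, hr] at hpsi
      have : 16 * (r * rd k) = 16 * k := by linarith
      omega
    have e2 : w / 16 = r := by omega
    obtain ⟨m, hm, -⟩ := rd_two hk0 h2
    have hr0 : 0 < r := by
      rcases Nat.eq_zero_or_pos r with h | h
      · rw [h, zero_mul] at e1
        omega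
      · exact h
    rw [if_pos ⟨r, hr⟩, e2, e1]
    exact ⟨⟨fun _ => ⟨r, hr⟩, fun _ => by omega⟩, hr0, hrd, hΔ⟩
  · obtain ⟨⟨r, hr⟩, h16⟩ := b2 h2
    have e1 : r * rd k = k := by
      rw [rd_16_odd hk0 h2, hr] at hpsi
      have : 16 * (r * rd k) = 16 * k := by linarith
      omega
    have e2 : w / 8 = r := by omega
    have hr0 : 0 < r := by
      rcases Nat.eq_zero_or_pos r with h | h
      · rw [h, zero_mul] at e1
        omega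
      · exact h
    have hodd : ¬ 2 ∣ rd k := fun h4 => h2 (h4.trans (Nat.prod_primeFactors_dvd k))
    rw [if_neg h16, e2, e1]
    refine ⟨⟨fun h => absurd (Nat.dvd_of_mod_eq_zero h) hodd, fun h => absurd h h16⟩, hr0, hrd, hΔ⟩

theorem Att.c4 {W : WeierstrassCurve ℤ} {p : ℕ × ℕ} (h : Att W p) :
    (W.c₄ : ℝ) = (p.1 : ℝ) ^ 2 + p.1 * p.2 + (p.2 : ℝ) ^ 2 := by
  have h1 : W.c₄ = fA p := congrArg Prod.fst h.h5
  rw [h1]
  unfold fA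
  push_cast
  ring

theorem Att.disc {W : WeierstrassCurve ℤ} {p : ℕ × ℕ} (h : Att W p) :
    256 * (W.Δ : ℝ) = ((p.1 : ℝ) * p.2 * (p.1 + p.2)) ^ 2 := by
  have := h.h6
  exact_mod_cast this

/-- the invariant -/
theorem Att.inv {W : WeierstrassCurve ℤ} {p : ℕ × ℕ} (h : Att W p) (t : ℝ) :
    1728 * t * (W.Δ : ℝ) < (W.c₄ : ℝ) ^ 3 ↔ Inv t p := by
  unfold Inv
  rw [← h.c4, ← h.disc]
  constructor <;> intro <;> linarith

/-- the height -/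
theorem Att.height {W : WeierstrassCurve ℤ} {p : ℕ × ℕ} (h : Att W p) :
    0 < W.Δ ∧ 0 < W.c₄ ∧ 1728 * W.Δ ≤ W.c₄ ^ 3 ∧ max (|W.c₄| ^ 3) (W.c₆ ^ 2) = W.c₄ ^ 3 := by
  obtain ⟨-, f2, f3, f4⟩ := h.facts
  have hD : 0 < W.Δ := by
    rw [f4]
    have : 0 < rr p * cond W := Nat.mul_pos f2 f3
    positivity
  have h1 : W.c₄ = fA p := congrArg Prod.fst h.h5
  have b1 : (0 : ℤ) < p.1 := by exact_mod_cast h.h1
  have b2 : (0 : ℤ) < p.2 := by exact_mod_cast lt_of_lt_of_le h.h1 h.h2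
  have h4 : 0 < W.c₄ := by
    rw [h1]
    unfold fA
    positivity
  have hrel := W.c_relation
  have h6 : W.c₆ ^ 2 = W.c₄ ^ 3 - 1728 * W.Δ := by linarith
  refine ⟨hD, h4, ?_, ?_⟩
  · have : 0 ≤ W.c₆ ^ 2 := sq_nonneg _
    linarith
  · rw [abs_of_pos h4, max_eq_left]
    linarith

/-- **The curves by parity of the conductor, quotient and invariant.** -/
theorem joint0 (S : Set ℕ) (t : ℕ → ℝ) :
    Tendsto (fun X : ℝ => ((Cu (fun W => cond W % 2 = 0 ∧ ∃ r ∈ S,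
      W.Δ = ((r * cond W : ℕ) : ℤ) ^ 2 ∧ 1728 * t r * (W.Δ : ℝ) < (W.c₄ : ℝ) ^ 3) X).ncard : ℝ) /
        X ^ ((2 : ℝ) / 3)) atTop
      (𝓝 (c0 * ((2 : ℝ) ^ (-(4 : ℝ) / 3) * ∑' r, wt r * S.indicator (fun r => JT (t r)) r))) := by
  have h : ∀ W p, Att W p → ((cond W % 2 = 0 ∧ ∃ r ∈ S,
      W.Δ = ((r * cond W : ℕ) : ℤ) ^ 2 ∧ 1728 * t r * (W.Δ : ℝ) < (W.c₄ : ℝ) ^ 3) ↔
      (16 ∣ psi3 ∅ p ∧ psi3 ∅ p / 16 ∈ S ∧ Inv (t (psi3 ∅ p / 16)) p)) := by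
    intro W p hA
    obtain ⟨f1, f2, f3, f4⟩ := hA.facts
    rw [f1]
    constructor
    · rintro ⟨g1, r, g2, g3, g4⟩
      have e1 : rr p = psi3 ∅ p / 16 := if_pos g1
      have e2 : r = rr p := by
        rw [f4] at g3
        have := (sq_eq_sq₀ (by positivity) (by positivity)).1 g3
        have h5 : rr p * cond W = r * cond W := by exact_mod_cast this
        exact (Nat.eq_of_mul_eq_mul_right f3 h5).symm
      rw [e1] at e2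
      rw [hA.inv] at g4
      rw [← e2]
      exact ⟨g1, g2, g4⟩
    · rintro ⟨g1, g2, g3⟩
      have e1 : rr p = psi3 ∅ p / 16 := if_pos g1
      refine ⟨g1, rr p, by rw [e1]; exact g2, f4, ?_⟩
      rw [hA.inv, e1]
      exact g3
  simp only [Cu_ncard h]
  have h1 := split (fun p => 16 ∣ psi3 ∅ p ∧ psi3 ∅ p / 16 ∈ S ∧ Inv (t (psi3 ∅ p / 16)) p)
    (l0 := c0 * ((2 : ℝ) ^ (-(4 : ℝ) / 3) * ∑' r, wt r * S.indicator (fun r => JT (t r)) r))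
    (l1 := 0) ?_ ?_
  · rw [mul_zero, add_zero] at h1
    exact h1
  · refine (master0 S t).congr fun X => ?_
    congr 3
    ext p
    exact ⟨fun g => ⟨g.1, g.2.1, g.2⟩, fun g => ⟨g.1, g.2.2⟩⟩
  · have e : ∀ X : ℝ, ({p | p ∈ triples X ∧ (8 ∣ psi3 ∅ p ∧ ¬ 16 ∣ psi3 ∅ p) ∧
        16 ∣ psi3 ∅ p ∧ psi3 ∅ p / 16 ∈ S ∧ Inv (t (psi3 ∅ p / 16)) p} : Set (ℕ × ℕ)) = ∅ := by
      intro X
      rw [Set.eq_empty_iff_forall_notMem]
      rintro p ⟨-, ⟨-, g1⟩, g2, -⟩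
      exact g1 g2
    simp only [e, Set.ncard_empty]
    simp

theorem joint1 (S : Set ℕ) (t : ℕ → ℝ) :
    Tendsto (fun X : ℝ => ((Cu (fun W => cond W % 2 = 1 ∧ ∃ r ∈ S,
      W.Δ = ((r * cond W : ℕ) : ℤ) ^ 2 ∧ 1728 * t r * (W.Δ : ℝ) < (W.c₄ : ℝ) ^ 3) X).ncard : ℝ) /
        X ^ ((2 : ℝ) / 3)) atTop
      (𝓝 (c0 * ((2 : ℝ) ^ (-(1 : ℝ) / 3) * ∑' r, {r : ℕ | ¬ 2 ∣ r}.indicator
        (fun r => wt r * S.indicator (fun r => JT (t r)) r) r))) := by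
  have h : ∀ W p, Att W p → ((cond W % 2 = 1 ∧ ∃ r ∈ S,
      W.Δ = ((r * cond W : ℕ) : ℤ) ^ 2 ∧ 1728 * t r * (W.Δ : ℝ) < (W.c₄ : ℝ) ^ 3) ↔
      (¬ 16 ∣ psi3 ∅ p ∧ psi3 ∅ p / 8 ∈ S ∧ Inv (t (psi3 ∅ p / 8)) p)) := by
    intro W p hA
    obtain ⟨f1, f2, f3, f4⟩ := hA.facts
    have f1' : cond W % 2 = 1 ↔ ¬ 16 ∣ psi3 ∅ p := by
      rw [← f1]
      omega
    rw [f1']
    constructor
    · rintro ⟨g1, r, g2, g3, g4⟩
      have e1 : rr p = psi3 ∅ p / 8 := if_neg g1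
      have e2 : r = rr p := by
        rw [f4] at g3
        have := (sq_eq_sq₀ (by positivity) (by positivity)).1 g3
        have h5 : rr p * cond W = r * cond W := by exact_mod_cast this
        exact (Nat.eq_of_mul_eq_mul_right f3 h5).symm
      rw [e1] at e2
      rw [hA.inv] at g4
      rw [← e2]
      exact ⟨g1, g2, g4⟩
    · rintro ⟨g1, g2, g3⟩
      have e1 : rr p = psi3 ∅ p / 8 := if_neg g1
      refine ⟨g1, rr p, by rw [e1]; exact g2, f4, ?_⟩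
      rw [hA.inv, e1]
      exact g3
  simp only [Cu_ncard h]
  have h1 := split (fun p => ¬ 16 ∣ psi3 ∅ p ∧ psi3 ∅ p / 8 ∈ S ∧ Inv (t (psi3 ∅ p / 8)) p)
    (l0 := 0) (l1 := c0 * (1 / 2 * ∑' r, {r : ℕ | ¬ 2 ∣ r}.indicator
        (fun r => wt r * S.indicator (fun r => JT (t r)) r) r)) ?_ ?_
  · have e : (2 : ℝ) ^ ((2 : ℝ) / 3) * (1 / 2) = (2 : ℝ) ^ (-(1 : ℝ) / 3) := by
      rw [show -(1 : ℝ) / 3 = 2 / 3 - 1 by norm_num, Real.rpow_sub_one (by norm_num)]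
      ring
    have e2 : ∀ y : ℝ, 0 + (2 : ℝ) ^ ((2 : ℝ) / 3) * (c0 * (1 / 2 * y)) =
        c0 * ((2 : ℝ) ^ (-(1 : ℝ) / 3) * y) := by
      intro y
      rw [← e]
      ring
    rw [e2] at h1
    exact h1
  · have e : ∀ X : ℝ, ({p | p ∈ triples X ∧ 16 ∣ psi3 ∅ p ∧
        ¬ 16 ∣ psi3 ∅ p ∧ psi3 ∅ p / 8 ∈ S ∧ Inv (t (psi3 ∅ p / 8)) p} : Set (ℕ × ℕ)) = ∅ := by
      intro X
      rw [Set.eq_empty_iff_forall_notMem]
      rintro p ⟨-, g1, g2, -⟩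
      exact g2 g1
    simp only [e, Set.ncard_empty]
    simp
  · refine (master1 S t).congr fun X => ?_
    congr 3
    ext p
    exact ⟨fun g => ⟨g.1, g.2.1, g.2.1.2, g.2.2⟩, fun g => ⟨g.1, g.2.1, g.2.2.2⟩⟩

end Pool.Agent.R476.SR
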